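import Pool.Agent.H699.RM.Limits

/-!
# The number of matroids representable over a finite field: exponentially small error term

The starting result says that the number of isomorphism classes of `GF(q)`-representable matroids
on `n` elements is asymptotic to `F_q(n)`. Here the relative error is shown to be exponentially
small: it is at most `ρ ^ n` for all large `n`, for every `ρ > (1 - q⁻³)^(1/4)`.
-/

set_option autoImplicit false

namespace Pool.Agent.Results.MP_e84969_co.ExponentialError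

open Pool.Agent.H699.RM Filter Topology

/-- a power times a smaller exponential -/
lemma base {r ρ : ℝ} (hr : 0 ≤ r) (hρ : 0 < ρ) (h : r < ρ) (k : ℕ) :
    Tendsto (fun n : ℕ => (n : ℝ) ^ k * r ^ n / ρ ^ n) atTop (𝓝 0) := by
  have h1 := tendsto_pow_const_mul_const_pow_of_lt_one k (r := r / ρ) (by positivity)
    (by rw [div_lt_one hρ]; exact h)
  refine h1.congr (fun n => ?_)
  rw [div_pow]
  ring

lemma base_rpow {q ρ : ℝ} (hq : 1 < q) (hρ : 0 < ρ) {c : ℝ} (h : q ^ (-1 / c) < ρ)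
    (k : ℕ) : Tendsto (fun n : ℕ => (n : ℝ) ^ k * q ^ (-(n : ℝ) / c) / ρ ^ n) atTop (𝓝 0) := by
  have h0 : 0 < q := by linarith
  refine (base (Real.rpow_nonneg h0.le (-1 / c)) hρ h k).congr (fun n => ?_)
  rw [rpow_lin h0]

/-- Gaussian terms are smaller than every exponential -/
lemma gauss {q ρ : ℝ} (hq : 1 < q) (hρ : 0 < ρ) {c : ℝ} (hc : 0 < c) :
    ∀ᶠ n : ℕ in atTop, q ^ (-(n : ℝ) ^ 2 / c) ≤ (ρ / 2) ^ n := by
  have h0 : 0 < q := by linarith
  have h1 := tendsto_base hq hc 0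
  have h2 := h1.eventually_le_const (show (0 : ℝ) < ρ / 2 by positivity)
  filter_upwards [h2] with n hn
  rw [pow_zero, one_mul] at hn
  have h3 : q ^ (-(n : ℝ) ^ 2 / c) = (q ^ (-(n : ℝ) / c)) ^ n := by
    rw [← Real.rpow_natCast (q ^ (-(n : ℝ) / c)), ← Real.rpow_mul h0.le]
    congr 1
    ring
  rw [h3]
  exact pow_le_pow_left₀ (Real.rpow_nonneg h0.le _) hn n

lemma q_twelfth {q : ℝ} (hq : 2 ≤ q) : q ^ ((-1 : ℝ) / 12) ≤ (1 - 1 / q ^ 3) ^ ((1 : ℝ) / 4) := by
  have h0 : 0 < q := by linarith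
  set x : ℝ := 1 / q with hx
  have hx0 : 0 < x := by positivity
  have hx1 : x ≤ 1 / 2 := by
    rw [hx]
    exact one_div_le_one_div_of_le (by norm_num) hq
  have e1 : (1 : ℝ) - 1 / q ^ 3 = 1 - x ^ 3 := by
    rw [hx]
    ring
  have h2 : 0 ≤ 1 - x ^ 3 := by
    have : x ^ 3 ≤ (1 / 2) ^ 3 := pow_le_pow_left₀ hx0.le hx1 3
    norm_num at this
    linarith
  have h3 : x ≤ (1 - x ^ 3) ^ 3 := by
    have h4 : x ^ 3 ≤ 1 / 8 := by
      have : x ^ 3 ≤ (1 / 2) ^ 3 := pow_le_pow_left₀ hx0.le hx1 3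
      norm_num at this
      linarith
    have h5 : 0 < x ^ 3 := by positivity
    nlinarith [mul_nonneg h5.le h5.le, mul_nonneg (mul_nonneg h5.le h5.le) h2]
  have e2 : q ^ ((-1 : ℝ) / 12) = x ^ ((1 : ℝ) / 12) := by
    rw [hx, one_div, Real.inv_rpow h0.le, ← Real.rpow_neg h0.le]
    congr 1
    norm_num
  have e3 : (1 - x ^ 3) ^ ((1 : ℝ) / 4) = ((1 - x ^ 3) ^ 3) ^ ((1 : ℝ) / 12) := by
    rw [← Real.rpow_natCast (1 - x ^ 3) 3, ← Real.rpow_mul h2]
    congr 1
    norm_num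
  rw [e1, e2, e3]
  exact Real.rpow_le_rpow hx0.le h3 (by norm_num)

section

variable {q ρ : ℝ}

lemma errB_rate (hq : 1 < q) (hρ : 0 < ρ) (h : q ^ ((-1 : ℝ) / 12) < ρ) :
    Tendsto (fun n => errB q n / ρ ^ n) atTop (𝓝 0) := by
  have h5 := base_rpow hq hρ h 5
  have h4 := base_rpow hq hρ h 4
  have h3 := base_rpow hq hρ h 3
  have h := ((h5.add (h4.const_mul 2)).add h3).const_mul (16 * q ^ 2)
  rw [mul_zero, add_zero, add_zero, mul_zero] at h
  refine h.congr (fun n => ?_)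
  unfold errB
  ring

lemma errE_rate (hq : 1 < q) (hρ : 0 < ρ) (h : q ^ ((-1 : ℝ) / 12) < ρ)
    (h' : (1 - 1 / q ^ 3) ^ ((1 : ℝ) / 4) < ρ) :
    Tendsto (fun n => errE q n / ρ ^ n) atTop (𝓝 0) := by
  have h0 : 0 < q := by linarith
  have h8 : q ^ ((-1 : ℝ) / 8) < ρ := by
    refine lt_of_le_of_lt ?_ h
    exact Real.rpow_le_rpow_of_exponent_le hq.le (by norm_num)
  have h1 := base_rpow hq hρ h8 0
  have hb0 : (0 : ℝ) < 1 - 1 / q ^ 3 := by
    rw [sub_pos, div_lt_one (by positivity)]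
    exact one_lt_pow₀ hq (by norm_num)
  have h2 := (base (Real.rpow_nonneg hb0.le _) hρ h' 3).const_mul (q ^ 3)
  have h := h1.add h2
  rw [mul_zero, add_zero] at h
  refine h.congr (fun n => ?_)
  unfold errE
  have : (1 - 1 / q ^ 3) ^ ((n : ℝ) / 4) = ((1 - 1 / q ^ 3) ^ ((1 : ℝ) / 4)) ^ n := by
    rw [← Real.rpow_natCast ((1 - 1 / q ^ 3) ^ ((1 : ℝ) / 4)), ← Real.rpow_mul hb0.le]
    congr 1
    ring
  rw [this]
  ring

lemma errLow_rate (hq : 1 < q) (hρ : 0 < ρ) (h : q ^ ((-1 : ℝ) / 12) < ρ)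
    (h' : (1 - 1 / q ^ 3) ^ ((1 : ℝ) / 4) < ρ) :
    Tendsto (fun n => errLow q n / ρ ^ n) atTop (𝓝 0) := by
  have h0 : 0 < q := by linarith
  have h1 := (errE_rate hq hρ h h').const_mul 4
  have h2 : Tendsto (fun n : ℕ => ((n : ℝ) + 1) * (4 * (q * q ^ (-(n : ℝ) ^ 2 / 4096))) / ρ ^ n)
      atTop (𝓝 0) := by
    have h3 := ((base (show 0 ≤ ρ / 2 by positivity) hρ (by linarith) 1).add
      (base (show 0 ≤ ρ / 2 by positivity) hρ (by linarith) 0)).const_mul (4 * q)
    rw [add_zero, mul_zero] at h3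
    refine squeeze_zero' (Eventually.of_forall fun n => by positivity) ?_ h3
    filter_upwards [gauss hq hρ (c := 4096) (by norm_num)] with n hn
    calc ((n : ℝ) + 1) * (4 * (q * q ^ (-(n : ℝ) ^ 2 / 4096))) / ρ ^ n
        = (((n : ℝ) + 1) * (4 * q) / ρ ^ n) * q ^ (-(n : ℝ) ^ 2 / 4096) := by ring
      _ ≤ (((n : ℝ) + 1) * (4 * q) / ρ ^ n) * (ρ / 2) ^ n :=
          mul_le_mul_of_nonneg_left hn (by positivity)
      _ = _ := by ring
  have h := h1.add h2
  rw [mul_zero, add_zero] at h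
  refine h.congr (fun n => ?_)
  unfold errLow
  ring

lemma errC_rate {K : ℝ} (hq : 1 < q) (hρ : 0 < ρ) (hK : 0 ≤ K) :
    Tendsto (fun n => errC q K n / ρ ^ n) atTop (𝓝 0) := by
  have h0 : 0 < q := by linarith
  have hs := (tendsto_base hq (c := 16384) (by norm_num) 1).const_mul q
  rw [mul_zero] at hs
  have hev := hs.eventually_le_const (show (0 : ℝ) < ρ / 2 by positivity)
  have g3 := base (show 0 ≤ ρ / 2 by positivity) hρ (by linarith) 3
  have g2 := base (show 0 ≤ ρ / 2 by positivity) hρ (by linarith) 2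
  have g1 := base (show 0 ≤ ρ / 2 by positivity) hρ (by linarith) 1
  have g0 := base (show 0 ≤ ρ / 2 by positivity) hρ (by linarith) 0
  have h := ((((g3.add (g2.const_mul 3)).add (g1.const_mul 3)).add g0)).const_mul (24 * q * K)
  simp only [mul_zero, add_zero] at h
  refine squeeze_zero' (Eventually.of_forall fun n => by
    have := errC_nonneg h0 hK n
    positivity) ?_ h
  filter_upwards [hev] with n hn
  have h1 : q ^ (-(n : ℝ) ^ 2 / 16384) = (q ^ (-(n : ℝ) / 16384)) ^ n := by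
    rw [← Real.rpow_natCast (q ^ (-(n : ℝ) / 16384)), ← Real.rpow_mul h0.le]
    congr 1
    ring
  have h2 : errC q K n = (24 * q * K * ((n : ℝ) + 1) ^ 3) *
      (q * ((n : ℝ) ^ 1 * q ^ (-(n : ℝ) / 16384))) ^ n := by
    unfold errC
    rw [h1, mul_pow, mul_pow, pow_one]
    ring
  rw [h2]
  have h3 : (q * ((n : ℝ) ^ 1 * q ^ (-(n : ℝ) / 16384))) ^ n ≤ (ρ / 2) ^ n :=
    pow_le_pow_left₀ (by positivity) hn n
  calc _ ≤ (24 * q * K * ((n : ℝ) + 1) ^ 3) * (ρ / 2) ^ n / ρ ^ n := by gcongr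
    _ = _ := by ring

end

/-- For every prime power `q = p ^ k`, every field `F` with `q` elements and every real
`ρ > (1 - 1 / q³)^(1/4)`, the number `numRep F n` of isomorphism classes of `F`-representable
matroids on `n` elements satisfies `|numRep F n / F_q(n) - 1| ≤ ρ ^ n` for all large `n`, where
`F_q(n) = (1 / (n! k (q - 1) ^ (n - 1))) * ∑_j [n choose j]_q`; as `(1 - 1 / q³)^(1/4) < 1`, the
relative error is exponentially small, and in particular `numRep F n ∼ F_q(n)`. -/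
theorem result (p k : ℕ) (hp : p.Prime) (F : Type) [Field F] [Fintype F]
    (hF : Fintype.card F = p ^ k) :
    (∀ ρ : ℝ, (1 - 1 / ((p : ℝ) ^ k) ^ 3) ^ ((1 : ℝ) / 4) < ρ →
      ∀ᶠ n : ℕ in Filter.atTop, |(numRep F n : ℝ) / comparison F k n - 1| ≤ ρ ^ n) ∧
    (1 - 1 / ((p : ℝ) ^ k) ^ 3) ^ ((1 : ℝ) / 4) < 1 ∧
    Filter.Tendsto (fun n : ℕ => (numRep F n : ℝ) / comparison F k n) Filter.atTop (nhds 1) := by
  have : Fact p.Prime := ⟨hp⟩
  have hK : Nat.card (F ≃+* F) = k := card_aut p k hF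
  have hqF : ((p : ℝ) ^ k) = (Fintype.card F : ℝ) := by rw [hF]; push_cast; rfl
  have hq2 : (2 : ℝ) ≤ (Fintype.card F : ℝ) := by exact_mod_cast two_le_card (F := F)
  have hq : (1 : ℝ) < (Fintype.card F : ℝ) := by linarith
  have hq0 := q_pos (F := F)
  rw [hqF]
  have hb0 : (0 : ℝ) < 1 - 1 / (Fintype.card F : ℝ) ^ 3 := by
    rw [sub_pos, div_lt_one (by positivity)]
    exact one_lt_pow₀ hq (by norm_num)
  have hb1 : (1 : ℝ) - 1 / (Fintype.card F : ℝ) ^ 3 < 1 := by
    have : 0 < 1 / (Fintype.card F : ℝ) ^ 3 := by positivity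
    linarith
  refine ⟨fun ρ hρ' => ?_, Real.rpow_lt_one hb0.le hb1 (by norm_num),
    tendsto_ratio k (card_aut p k hF)⟩
  have hρ : 0 < ρ := lt_of_le_of_lt (Real.rpow_nonneg hb0.le _) hρ'
  have h12 : (Fintype.card F : ℝ) ^ ((-1 : ℝ) / 12) < ρ := lt_of_le_of_lt (q_twelfth hq2) hρ'
  have hlow := (errLow_rate hq hρ h12 hρ').eventually_le_const (show (0 : ℝ) < 1 by norm_num)
  have hup : Tendsto (fun n : ℕ => errUp (Fintype.card F : ℝ) k n / ρ ^ n) atTop (𝓝 0) := by
    have h1 := ((errB_rate hq hρ h12).add (errC_rate hq hρ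
      (show (0 : ℝ) ≤ k by positivity))).mul_const (Fintype.card F : ℝ)
    rw [add_zero, zero_mul] at h1
    refine h1.congr (fun n => ?_)
    unfold errUp
    ring
  have hup' := hup.eventually_le_const (show (0 : ℝ) < 1 by norm_num)
  have hKpos : 0 < k := by
    rw [← hK]
    have : Finite (F ≃+* F) := inferInstance
    exact Nat.card_pos
  have key : ∀ n : ℕ, (numRep F n : ℝ) / comparison F k n =
      (numRep F n : ℝ) * ((n.factorial : ℝ) * Nat.card (F ≃+* F) *
      ((Fintype.card F : ℝ) - 1) ^ (n - 1)) / Nat.card (Submodule F (Fin n → F)) := by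
    intro n
    unfold comparison
    rw [sum_gaussBinom, hK]
    have h1 : (0 : ℝ) < ((Fintype.card F : ℝ) - 1) ^ (n - 1) := by
      apply pow_pos; linarith
    have h2 : (0 : ℝ) < Nat.card (Submodule F (Fin n → F)) := by
      have : 0 < Nat.card (Submodule F (Fin n → F)) := Nat.card_pos
      exact_mod_cast this
    have h3 : (0 : ℝ) < (n.factorial : ℝ) := by exact_mod_cast Nat.factorial_pos n
    have h4 : (0 : ℝ) < (k : ℝ) := by exact_mod_cast hKpos
    field_simp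
  filter_upwards [hlow, hup', eventually_ge_atTop 128, tendsto_hy hq] with n h1 h2 hn2 hn3
  have hρn : 0 < ρ ^ n := pow_pos hρ n
  rw [div_le_one hρn] at h1 h2
  have hcard : (0 : ℝ) < Nat.card (Submodule F (Fin n → F)) := by
    have : 0 < Nat.card (Submodule F (Fin n → F)) := Nat.card_pos
    exact_mod_cast this
  have hge : 1 - errLow (Fintype.card F : ℝ) n ≤ (numRep F n : ℝ) / comparison F k n := by
    rw [key, le_div_iff₀ hcard]
    exact ratio_ge hn2
  have hle : (numRep F n : ℝ) / comparison F k n ≤ 1 + errUp (Fintype.card F : ℝ) k n := by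
    rw [key, div_le_iff₀ hcard]
    have := ratio_le (F := F) hn2 hn3
    rwa [hK] at this ⊢
  rw [abs_le]
  constructor <;> linarith

end Pool.Agent.Results.MP_e84969_co.ExponentialError
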